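import Mathlib
import Pool.Agent.Y28.BG.Stm

/-! # BG-F4: over a valuation domain the derived square of a nonzero module is nonzero -/

set_option autoImplicit false

namespace Pool.Agent.Y291.BG

open TensorProduct

/-- an elementary tensor which vanishes, first factor flat -/
theorem mem_of_tmul {R M N : Type} [CommRing R] [AddCommGroup M] [Module R M] [Module.Flat R M]
    [AddCommGroup N] [Module R N] (m : M) (x : N) (h : m ⊗ₜ[R] x = 0) :
    m ∈ (Ideal.torsionOf R N x) • (⊤ : Submodule R M) := by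
  let ι : (R ⧸ Ideal.torsionOf R N x) →ₗ[R] N :=
    (Submodule.span R {x}).subtype.comp (Ideal.quotTorsionOfEquivSpanSingleton R N x).toLinearMap
  have hι : Function.Injective ι :=
    (Submodule.span R {x}).injective_subtype.comp (LinearEquiv.injective _)
  have h1 := Module.Flat.lTensor_preserves_injective_linearMap (M := M) ι hι
  have h2 : ι (Ideal.Quotient.mk _ 1) = x := by
    show ((Ideal.quotTorsionOfEquivSpanSingleton R N x (Submodule.Quotient.mk 1) : Submodule.span R {x}) : N) = x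
    rw [Ideal.quotTorsionOfEquivSpanSingleton_apply_mk]
    simp
  have h4 : m ⊗ₜ[R] (Ideal.Quotient.mk (Ideal.torsionOf R N x) 1) = 0 := by
    apply h1
    rw [LinearMap.lTensor_tmul, h2, h, map_zero]
  have h5 := congrArg (tensorQuotEquivQuotSMul M (Ideal.torsionOf R N x)) h4
  rw [tensorQuotEquivQuotSMul_tmul_mk, map_zero, one_smul, Submodule.Quotient.mk_eq_zero] at h5
  exact h5

/-- elements of `I • ⊤` over a valuation ring -/
theorem smul_form {D N : Type} [CommRing D] [IsDomain D] [ValuationRing D] [AddCommGroup N] [Module D N]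
    (I : Ideal D) (y : N) (hy : y ∈ I • (⊤ : Submodule D N)) : ∃ b ∈ I, ∃ h : N, y = b • h := by
  induction hy using Submodule.smul_induction_on' with
  | smul b hb h _ => exact ⟨b, hb, h, rfl⟩
  | add y _ z _ hy hz =>
    obtain ⟨b1, hb1, h1, rfl⟩ := hy
    obtain ⟨b2, hb2, h2, rfl⟩ := hz
    obtain ⟨c, hc | hc⟩ := ValuationRing.cond b1 b2
    · exact ⟨b1, hb1, h1 + c • h2, by rw [← hc, smul_add, smul_smul]⟩
    · exact ⟨b2, hb2, c • h1 + h2, by rw [← hc, smul_add, smul_smul]⟩

section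

variable {D G : Type} [CommRing D] [IsDomain D] [ValuationRing D] [AddCommGroup G] [Module D G]
  [Module.Flat D G] (B : Submodule D G)

theorem tf_of_flat {M : Type} [AddCommGroup M] [Module D M] [Module.Flat D M] : Module.IsTorsionFree D M :=
  Submodule.isTorsionFree_iff_torsion_eq_bot.2 (Module.Flat.flat_iff_torsion_eq_bot_of_isBezout.1 inferInstance)

theorem flat_of_tf {M : Type} [AddCommGroup M] [Module D M] [Module.IsTorsionFree D M] : Module.Flat D M :=
  Module.Flat.flat_iff_torsion_eq_bot_of_isBezout.2 (Submodule.isTorsionFree_iff_torsion_eq_bot.1 inferInstance)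

theorem mem_tor (g : G) (d : D) : d ∈ Ideal.torsionOf D (G ⧸ B) (B.mkQ g) ↔ d • g ∈ B := by
  rw [Ideal.mem_torsionOf_iff, ← map_smul, Submodule.mkQ_apply, Submodule.Quotient.mk_eq_zero]

/-- step 1 -/
theorem step1 (hinj : Function.Injective (LinearMap.rTensor (G ⧸ B) B.subtype)) (g : G) (hg : g ∉ B) (a : D)
    (ha : a ≠ 0) (hag : a • g ∈ B) : ∃ b c : D, a = b * c ∧ b • g ∈ B ∧ c • g ∈ B := by
  have hG : Module.IsTorsionFree D G := tf_of_flat
  have hBt : Module.IsTorsionFree D B := by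
    rw [Submodule.isTorsionFree_iff_torsion_eq_bot, Submodule.eq_bot_iff]
    rintro y ⟨r, hr⟩
    have h1 : (r : D) • (y : G) = 0 := congrArg Subtype.val hr
    have h2 := (smul_eq_zero.1 h1).resolve_left (nonZeroDivisors.ne_zero r.2)
    exact Subtype.ext h2
  have hBf : Module.Flat D B := flat_of_tf
  have h1 : (⟨a • g, hag⟩ : B) ⊗ₜ[D] (B.mkQ g) = 0 := by
    apply hinj
    rw [LinearMap.rTensor_tmul, map_zero]
    show (a • g) ⊗ₜ[D] (B.mkQ g) = 0
    rw [TensorProduct.smul_tmul, ← map_smul, Submodule.mkQ_apply, (Submodule.Quotient.mk_eq_zero B).2 hag,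
      TensorProduct.tmul_zero]
  obtain ⟨b, hb, h, hbh⟩ := smul_form _ _ (mem_of_tmul _ _ h1)
  rw [mem_tor] at hb
  have h2 : a • g = b • (h : G) := congrArg Subtype.val hbh
  obtain ⟨c, hc | hc⟩ := ValuationRing.cond a b
  · exfalso
    apply hg
    have h3 : a • (g - c • (h : G)) = 0 := by
      rw [smul_sub, smul_smul, hc, h2, sub_self]
    have h4 := (smul_eq_zero.1 h3).resolve_left ha
    rw [sub_eq_zero.1 h4]
    exact B.smul_mem _ h.2
  · refine ⟨b, c, hc.symm, hb, ?_⟩
    have hb0 : b ≠ 0 := by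
      rintro rfl
      rw [zero_mul] at hc
      exact ha hc.symm
    have h3 : b • (c • g - (h : G)) = 0 := by
      rw [smul_sub, smul_smul, hc, h2, sub_self]
    have h4 := (smul_eq_zero.1 h3).resolve_left hb0
    rw [sub_eq_zero.1 h4]
    exact h.2

/-- step 2 -/
theorem step2 (hinj : Function.Injective (LinearMap.rTensor (G ⧸ B) B.subtype)) (g : G) (hg : g ∉ B) :
    (Ideal.torsionOf D (G ⧸ B) (B.mkQ g)).IsPrime := by
  refine ⟨?_, ?_⟩
  · rw [Ideal.ne_top_iff_one, mem_tor, one_smul]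
    exact hg
  · intro s t hst
    rw [mem_tor] at hst ⊢
    rw [mem_tor]
    by_contra hcon
    push Not at hcon
    obtain ⟨hs, ht⟩ := hcon
    have hs0 : s ≠ 0 := by
      rintro rfl
      rw [zero_smul] at hs
      exact hs B.zero_mem
    have ht0 : t ≠ 0 := by
      rintro rfl
      rw [zero_smul] at ht
      exact ht B.zero_mem
    obtain ⟨b, c, hbc, hb, hc⟩ := step1 B hinj g hg (s * t) (mul_ne_zero hs0 ht0) hst
    obtain ⟨b', hb' | hb'⟩ := ValuationRing.cond s b
    · obtain ⟨c', hc' | hc'⟩ := ValuationRing.cond t c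
      · have h1 : (s * t) * (b' * c') = s * t * 1 := by
          calc (s * t) * (b' * c') = (s * b') * (t * c') := by ring
            _ = s * t * 1 := by rw [hb', hc', ← hbc, mul_one]
        have h2 := mul_left_cancel₀ (mul_ne_zero hs0 ht0) h1
        apply ht
        have h3 : t = b' * c := by
          calc t = t * (b' * c') := by rw [h2, mul_one]
            _ = b' * c := by rw [← hc']; ring
        rw [h3, mul_smul]
        exact B.smul_mem _ hc
      · apply ht
        rw [← hc', mul_comm, mul_smul]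
        exact B.smul_mem _ hc
    · apply hs
      rw [← hb', mul_comm, mul_smul]
      exact B.smul_mem _ hb

/-- step 3 -/
theorem step3 (hinj : Function.Injective (LinearMap.rTensor (G ⧸ B) B.subtype)) (g : G) (hg : g ∉ B) :
    B.mkQ g ∉ (Ideal.torsionOf D (G ⧸ B) (B.mkQ g)) • (⊤ : Submodule D (G ⧸ B)) := by
  intro hmem
  obtain ⟨u, hu, y, hy⟩ := smul_form _ _ hmem
  obtain ⟨h, rfl⟩ := B.mkQ_surjective y
  rw [mem_tor] at hu
  have hgu : g - u • h ∈ B := by
    rw [← map_smul, ← sub_eq_zero, ← map_sub, Submodule.mkQ_apply, Submodule.Quotient.mk_eq_zero] at hy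
    exact hy
  have huh : u • h ∉ B := by
    intro h1
    apply hg
    have := B.add_mem hgu h1
    rwa [sub_add_cancel] at this
  have hu0 : u ≠ 0 := by
    rintro rfl
    rw [zero_smul] at huh
    exact huh B.zero_mem
  have hh : h ∉ B := fun h1 => huh (B.smul_mem _ h1)
  have huu : (u * u) • h ∈ B := by
    have h1 := B.sub_mem hu (B.smul_mem u hgu)
    rw [smul_sub, sub_sub_cancel, smul_smul] at h1
    exact h1
  have key : ∀ b : D, b • h ∈ B → ∃ b', b = u * b' ∧ b' • g ∈ B := by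
    intro b hb
    obtain ⟨b', hb' | hb'⟩ := ValuationRing.cond u b
    · refine ⟨b', hb'.symm, ?_⟩
      have h1 : b' • (u • h) ∈ B := by
        rw [smul_smul, mul_comm, hb']
        exact hb
      have h2 := B.add_mem (B.smul_mem b' hgu) h1
      rwa [smul_sub, sub_add_cancel] at h2
    · exfalso
      apply huh
      rw [← hb', mul_comm, mul_smul]
      exact B.smul_mem _ hb
  obtain ⟨b, c, hbc, hb, hc⟩ := step1 B hinj h hh (u * u) (mul_ne_zero hu0 hu0) huu
  obtain ⟨b', rfl, hb'⟩ := key b hb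
  obtain ⟨c', rfl, hc'⟩ := key c hc
  have h1 : (u * u) * (b' * c') = u * u * 1 := by
    rw [mul_one]
    calc (u * u) * (b' * c') = (u * b') * (u * c') := by ring
      _ = u * u := hbc.symm
  have h2 := mul_left_cancel₀ (mul_ne_zero hu0 hu0) h1
  apply hg
  have h3 : g = b' • (c' • g) := by rw [smul_smul, h2, one_smul]
  rw [h3]
  exact B.smul_mem _ hc'

/-- step 3, multiples -/
theorem step3' (hinj : Function.Injective (LinearMap.rTensor (G ⧸ B) B.subtype)) (g : G) (hg : g ∉ B) (s : D)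
    (hs : s • g ∉ B) :
    B.mkQ (s • g) ∉ (Ideal.torsionOf D (G ⧸ B) (B.mkQ g)) • (⊤ : Submodule D (G ⧸ B)) := by
  have hP := step2 B hinj g hg
  have heq : Ideal.torsionOf D (G ⧸ B) (B.mkQ (s • g)) = Ideal.torsionOf D (G ⧸ B) (B.mkQ g) := by
    ext d
    rw [mem_tor, smul_smul, ← mem_tor B g (d * s)]
    constructor
    · intro h
      rcases hP.mem_or_mem h with h1 | h1
      · exact h1
      · rw [mem_tor] at h1
        exact absurd h1 hs
    · intro h
      exact Ideal.mul_mem_right _ _ h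
  rw [← heq]
  exact step3 B hinj (s • g) hs

/-- step 4 -/
theorem step4 (P : Ideal D) [hP : P.IsPrime] (V : Type) [AddCommGroup V] [Module D V] (x : V)
    (hx : ∀ s : D, s ∉ P → s • x ∉ P • (⊤ : Submodule D V)) : x ⊗ₜ[D] x ≠ 0 := by
  intro h0
  have hD' : IsDomain (D ⧸ P) := Ideal.Quotient.isDomain P
  have hV' : ValuationRing (D ⧸ P) :=
    Function.Surjective.valuationRing (Ideal.Quotient.mk P) Ideal.Quotient.mk_surjective
  let Q := V ⧸ (P • (⊤ : Submodule D V))
  let Q2 := Q ⧸ Submodule.torsion (D ⧸ P) Q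
  have hQt : Module.IsTorsionFree (D ⧸ P) Q2 := inferInstance
  have hQf : Module.Flat (D ⧸ P) Q2 := flat_of_tf
  let π : V →+ Q2 := (Submodule.torsion (D ⧸ P) Q).mkQ.toAddMonoidHom.comp
    (P • (⊤ : Submodule D V)).mkQ.toAddMonoidHom
  have hπ : ∀ (d : D) (v : V), π (d • v) = (Ideal.Quotient.mk P d) • π v := by
    intro d v
    show (Submodule.torsion (D ⧸ P) Q).mkQ ((P • (⊤ : Submodule D V)).mkQ (d • v)) =
      (Ideal.Quotient.mk P d) • (Submodule.torsion (D ⧸ P) Q).mkQ ((P • (⊤ : Submodule D V)).mkQ v)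
    rw [← map_smul]
    rfl
  have hπx : π x ≠ 0 := by
    intro h1
    have h2 : (P • (⊤ : Submodule D V)).mkQ x ∈ Submodule.torsion (D ⧸ P) Q := by
      rw [← Submodule.Quotient.mk_eq_zero]
      exact h1
    obtain ⟨⟨s', hs'⟩, h3⟩ := (Submodule.mem_torsion_iff _).1 h2
    obtain ⟨s, rfl⟩ := Ideal.Quotient.mk_surjective s'
    have hs0 : s ∉ P := by
      intro h4
      exact nonZeroDivisors.ne_zero hs' (Ideal.Quotient.eq_zero_iff_mem.2 h4)
    apply hx s hs0
    rw [← Submodule.Quotient.mk_eq_zero]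
    exact h3
  let f : V →+ V →+ (Q2 ⊗[D ⧸ P] Q2) :=
    AddMonoidHom.mk' (fun v => ((TensorProduct.mk (D ⧸ P) Q2 Q2 (π v)).toAddMonoidHom).comp π) (by
      intro a b
      ext w
      show π (a + b) ⊗ₜ[D ⧸ P] π w = π a ⊗ₜ[D ⧸ P] π w + π b ⊗ₜ[D ⧸ P] π w
      rw [map_add, TensorProduct.add_tmul])
  have hf : ∀ (r : D) (m n : V), f (r • m) n = f m (r • n) := by
    intro r m n
    show π (r • m) ⊗ₜ[D ⧸ P] π n = π m ⊗ₜ[D ⧸ P] π (r • n)
    rw [hπ, hπ, TensorProduct.smul_tmul]
  have h1 := congrArg (TensorProduct.liftAddHom f hf) h0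
  rw [map_zero] at h1
  have h2 : π x ⊗ₜ[D ⧸ P] π x = 0 := h1
  have h3 := mem_of_tmul _ _ h2
  have h4 : Ideal.torsionOf (D ⧸ P) Q2 (π x) = ⊥ := by
    rw [eq_bot_iff]
    intro d hd
    rw [Ideal.mem_torsionOf_iff] at hd
    exact (smul_eq_zero.1 hd).resolve_right hπx
  rw [h4, Submodule.bot_smul] at h3
  exact hπx h3

end

theorem f4 : Pool.Agent.Y28.BG.S_F4 := by
  intro D _ _ _ G _ _ _ B hbij
  by_contra hB
  obtain ⟨g, hg⟩ : ∃ g, g ∉ B := by
    by_contra h
    push Not at h
    exact hB (eq_top_iff.2 fun g _ => h g)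
  have hP := step2 B hbij.1 g hg
  refine step4 (Ideal.torsionOf D (G ⧸ B) (B.mkQ g)) (G ⧸ B) (B.mkQ g) ?_ ?_
  · intro s hs
    rw [mem_tor] at hs
    rw [← map_smul]
    exact step3' B hbij.1 g hg s hs
  · obtain ⟨t, ht⟩ := hbij.2 (g ⊗ₜ[D] (B.mkQ g))
    have h1 : LinearMap.rTensor (G ⧸ B) B.mkQ (g ⊗ₜ[D] (B.mkQ g)) = B.mkQ g ⊗ₜ[D] B.mkQ g :=
      LinearMap.rTensor_tmul _ _ _ _
    rw [← h1, ← ht, ← LinearMap.comp_apply, ← LinearMap.rTensor_comp]
    have h2 : B.mkQ.comp B.subtype = 0 := by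
      ext y
      simp
    rw [h2, LinearMap.rTensor_zero, LinearMap.zero_apply]

end Pool.Agent.Y291.BG
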